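import Pool.Agent.H.MP_e319d1_co.Tri

namespace Pool.Agent.Results.MP_31c3fe_co.Geodetic

open Pool.Agent.H.MP_e319d1_co

theorem result {B W : Type*} [Group W] (M : CoxeterMatrix B) (cs : CoxeterSystem M W)
    (hsl : ∀ s t, s ≠ t → M s t = 2 ∨ M s t = 3)
    (htf : ¬ ∃ s t u, M s t = 3 ∧ M t u = 3 ∧ M s u = 3) (α : List B) (hα : cs.IsReduced α)
    (h2 : (Cls M α).Nontrivial) :
    IsLeast {n : ℕ | ∃ X : Finset (Cls M α), X.card = n ∧ ∀ z, ∃ u ∈ X, ∃ v ∈ X,
      ∃ p : (braidGraph M α).Walk u v, p.length = (braidGraph M α).dist u v ∧ z ∈ p.support}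
      2 := by
  classical
  obtain ⟨U, -, σ, hd, u, v, huv⟩ := lamCox cs hsl htf hα
  have hc := conn (M := M) α
  have hnt : Nontrivial (Cls M α) := h2.coe_sort
  have self : ∀ (x z : Cls M α) (p : (braidGraph M α).Walk x x),
      p.length = (braidGraph M α).dist x x → z ∈ p.support → z = x := by
    intro x z p h1 h3
    rw [SimpleGraph.dist_self] at h1
    cases p with
    | nil => simpa using h3
    | cons _ _ => simp at h1
  have all : ∀ z, ∃ p : (braidGraph M α).Walk u v,
      p.length = (braidGraph M α).dist u v ∧ z ∈ p.support := by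
    intro z
    obtain ⟨p, hp⟩ := hc.exists_walk_length_eq_dist u z
    obtain ⟨q, hq⟩ := hc.exists_walk_length_eq_dist z v
    refine ⟨p.append q, ?_, by simp⟩
    rw [SimpleGraph.Walk.length_append, hp, hq, hd, hd, hd, Finset.filter_true_of_mem huv,
      ← Finset.card_filter_add_card_filter_not (s := U) (fun j => σ u j ≠ σ z j)]
    congr 2
    apply Finset.filter_congr
    intro j hj
    have := huv j hj
    revert this
    cases σ u j <;> cases σ v j <;> cases σ z j <;> simp
  constructor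
  · refine ⟨{u, v}, Finset.card_pair ?_, fun z => ⟨u, by simp, v, by simp, all z⟩⟩
    rintro rfl
    obtain ⟨z, hz⟩ := exists_ne u
    obtain ⟨p, h1, h3⟩ := all z
    exact hz (self u z p h1 h3)
  · rintro n ⟨X, rfl, hX⟩
    by_contra hlt
    have h1 := Finset.card_le_one.1 (by omega : X.card ≤ 1)
    obtain ⟨a, ha, -⟩ := hX u
    obtain ⟨z, hz⟩ := exists_ne a
    obtain ⟨b, hb, c, hc', p, h3, h4⟩ := hX z
    have e1 := h1 b hb a ha
    have e2 := h1 c hc' a ha
    subst e1 e2
    exact hz (self _ z p h3 h4)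

end Pool.Agent.Results.MP_31c3fe_co.Geodetic
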